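import Mathlib

set_option autoImplicit false

open Submodule MvPolynomial

namespace Pool.Agent.Lib.MP_3de1ca_gt

/-- The polynomial ring `ℚ[e₀, e₁, e₂, x]`, `x = X 3`. -/
abbrev RR : Type := MvPolynomial (Fin 4) ℚ

/-- the exponents of the six quadratic monomials in `e₀, e₁, e₂` -/
noncomputable def qexp : Fin 6 → (Fin 4 →₀ ℕ)
  | 0 => Finsupp.single 0 1 + Finsupp.single 0 1
  | 1 => Finsupp.single 1 1 + Finsupp.single 1 1
  | 2 => Finsupp.single 2 1 + Finsupp.single 2 1
  | 3 => Finsupp.single 1 1 + Finsupp.single 2 1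
  | 4 => Finsupp.single 0 1 + Finsupp.single 2 1
  | 5 => Finsupp.single 0 1 + Finsupp.single 1 1

/-- the six quadratic monomials -/
noncomputable def rq (α : Fin 6) : RR := monomial (qexp α) 1

/-- The relations `r_α q_β = r_β q_α`. -/
noncomputable def BB : Submodule RR (Fin 6 → RR) :=
  span RR {v | ∃ α β : Fin 6, v = rq α • Pi.single β 1 - rq β • Pi.single α 1}

/-- The module `K_1 / B_1` over `ℚ[e₀, e₁, e₂, x]`. -/
abbrev MM : Type := (Fin 6 → RR) ⧸ BB

noncomputable def qq (α : Fin 6) : MM := BB.mkQ (Pi.single α 1)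

theorem linearCombination_single (α : Fin 6) :
    Fintype.linearCombination RR rq (Pi.single α 1) = rq α := by
  rw [Fintype.linearCombination_apply_single, one_smul]

noncomputable def mu : MM →ₗ[RR] RR :=
  BB.liftQ (Fintype.linearCombination RR rq) (by
    rw [BB, span_le]
    rintro _ ⟨α, β, rfl⟩
    rw [SetLike.mem_coe, LinearMap.mem_ker, map_sub, map_smul, map_smul, linearCombination_single,
      linearCombination_single, smul_eq_mul, smul_eq_mul, mul_comm, sub_self])

theorem mu_qq (α : Fin 6) : mu (qq α) = rq α := by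
  rw [mu, qq, mkQ_apply, liftQ_apply, linearCombination_single]

theorem rq_smul_qq (α β : Fin 6) : rq α • qq β = rq β • qq α := by
  rw [← sub_eq_zero, qq, qq, ← map_smul, ← map_smul, ← map_sub, mkQ_apply, Quotient.mk_eq_zero]
  exact subset_span ⟨α, β, rfl⟩

theorem span_qq : span RR (Set.range qq) = ⊤ := by
  rw [eq_top_iff]
  rintro m -
  obtain ⟨v, rfl⟩ := BB.mkQ_surjective m
  have h1 : v = ∑ α, v α • (Pi.single α (1 : RR) : Fin 6 → RR) := by
    exact pi_eq_sum_univ' v |>.trans (Finset.sum_congr rfl fun i _ => by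
      congr 1)
  rw [h1, map_sum]
  refine sum_mem fun α _ => ?_
  rw [map_smul]
  exact smul_mem _ _ (subset_span ⟨α, rfl⟩)

theorem mu_comm (m m' : MM) : mu m • m' = mu m' • m := by
  have hm : m ∈ span RR (Set.range qq) := by rw [span_qq]; trivial
  have hm' : m' ∈ span RR (Set.range qq) := by rw [span_qq]; trivial
  induction hm using Submodule.span_induction with
  | mem m h =>
    obtain ⟨α, rfl⟩ := h
    induction hm' using Submodule.span_induction with
    | mem m' h =>
      obtain ⟨β, rfl⟩ := h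
      rw [mu_qq, mu_qq, rq_smul_qq]
    | zero => simp
    | add x y _ _ hx hy => rw [smul_add, map_add, add_smul, hx, hy]
    | smul c x _ hx => rw [map_smul, smul_comm, hx, smul_eq_mul, mul_smul]
  | zero => simp
  | add x y _ _ hx hy => rw [smul_add, map_add, add_smul, hx, hy]
  | smul c x _ hx => rw [map_smul, smul_eq_mul, mul_smul, hx, smul_comm]

/-- the class `a = e₀ q₁₂ + e₁ q₀₂ - 2 e₂ q₀₁` -/
noncomputable def aa : MM :=
  (X 0 : RR) • qq 3 + (X 1 : RR) • qq 4 - (2 * X 2 : RR) • qq 5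

theorem mu_aa : mu aa = 0 := by
  rw [aa, map_sub, map_add, map_smul, map_smul, map_smul, mu_qq, mu_qq, mu_qq]
  have h3 : rq 3 = X 1 * X 2 := by
    rw [rq, qexp, X, X, monomial_mul, one_mul]
  have h4 : rq 4 = X 0 * X 2 := by
    rw [rq, qexp, X, X, monomial_mul, one_mul]
  have h5 : rq 5 = X 0 * X 1 := by
    rw [rq, qexp, X, X, monomial_mul, one_mul]
  rw [h3, h4, h5, smul_eq_mul, smul_eq_mul, smul_eq_mul]
  ring

/-! ### coefficients -/

theorem qexp_le_iff (α γ : Fin 6) (k : ℕ) :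
    qexp α ≤ qexp γ + Finsupp.single 3 k ↔ α = γ := by
  constructor
  · intro h
    have h0 := h 0
    have h1 := h 1
    have h2 := h 2
    fin_cases α <;> fin_cases γ <;> first | rfl | (exfalso; simp [qexp] at h0 h1 h2)
  · rintro rfl
    exact le_self_add

theorem coeff_mul_rq (s : RR) (α γ : Fin 6) (k : ℕ) :
    coeff (qexp γ + Finsupp.single 3 k) (s * rq α) =
      if α = γ then coeff (Finsupp.single 3 k) s else 0 := by
  rw [rq, coeff_mul_monomial']
  by_cases h : α = γ
  · subst h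
    rw [if_pos ((qexp_le_iff _ _ _).mpr rfl), if_pos rfl, add_tsub_cancel_left, mul_one]
  · rw [if_neg (fun h' => h ((qexp_le_iff _ _ _).mp h')), if_neg h]

/-- monomials of degree at most one in the `e`'s -/
def IsLow (m : Fin 4 →₀ ℕ) : Prop := m 0 + m 1 + m 2 ≤ 1

theorem qexp_not_le (α : Fin 6) (m : Fin 4 →₀ ℕ) (hm : IsLow m) : ¬ qexp α ≤ m := by
  intro h
  have h0 := h 0
  have h1 := h 1
  have h2 := h 2
  rw [IsLow] at hm
  fin_cases α <;> simp [qexp] at h0 h1 h2 <;> omega

theorem coeff_mul_rq_low (s : RR) (α : Fin 6) (m : Fin 4 →₀ ℕ) (hm : IsLow m) :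
    coeff m (s * rq α) = 0 := by
  rw [rq, coeff_mul_monomial', if_neg (qexp_not_le α m hm)]

theorem BB_low (v : Fin 6 → RR) (hv : v ∈ BB) (β : Fin 6) (m : Fin 4 →₀ ℕ) (hm : IsLow m) :
    coeff m (v β) = 0 := by
  have h : ∀ s : RR, coeff m ((s • v) β) = 0 := by
    induction hv using Submodule.span_induction with
    | mem v h =>
      obtain ⟨α, γ, rfl⟩ := h
      intro s
      simp only [Pi.smul_apply, Pi.sub_apply, smul_eq_mul, Pi.single_apply, mul_sub, coeff_sub]
      split_ifs <;> simp [coeff_mul_rq_low _ _ _ hm]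
    | zero => intro s; simp
    | add x y _ _ hx hy => intro s; rw [smul_add, Pi.add_apply, coeff_add, hx, hy, add_zero]
    | smul c x _ hx => intro s; rw [smul_smul]; exact hx _
  simpa using h 1

theorem BB_quad (v : Fin 6 → RR) (hv : v ∈ BB) (β γ : Fin 6) (k : ℕ) :
    coeff (qexp γ + Finsupp.single 3 k) (v β) + coeff (qexp β + Finsupp.single 3 k) (v γ) = 0 := by
  have h : ∀ s : RR, coeff (qexp γ + Finsupp.single 3 k) ((s • v) β) +
      coeff (qexp β + Finsupp.single 3 k) ((s • v) γ) = 0 := by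
    induction hv using Submodule.span_induction with
    | mem v h =>
      obtain ⟨α, δ, rfl⟩ := h
      intro s
      simp only [Pi.smul_apply, Pi.sub_apply, smul_eq_mul, Pi.single_apply, mul_sub, coeff_sub,
        mul_ite, mul_one, mul_zero]
      have e1 : ∀ (α β γ : Fin 6) (Q : Prop) [Decidable Q],
          coeff (qexp γ + Finsupp.single 3 k) (if Q then s * rq α else 0) =
          if Q ∧ α = γ then coeff (Finsupp.single 3 k) s else 0 := by
        intro α β γ Q _
        by_cases hQ : Q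
        · simp [hQ, coeff_mul_rq]
        · simp [hQ]
      rw [e1 α β, e1 δ β, e1 α β, e1 δ β]
      have e2 : (γ = δ ∧ α = β) ↔ (β = α ∧ δ = γ) := by
        constructor
        · rintro ⟨h1, h2⟩; exact ⟨h2.symm, h1.symm⟩
        · rintro ⟨h1, h2⟩; exact ⟨h2.symm, h1.symm⟩
      have e3 : (γ = α ∧ δ = β) ↔ (β = δ ∧ α = γ) := by
        constructor
        · rintro ⟨h1, h2⟩; exact ⟨h2.symm, h1.symm⟩
        · rintro ⟨h1, h2⟩; exact ⟨h2.symm, h1.symm⟩
      simp only [e2, e3]
      ring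
    | zero => intro s; simp
    | add x y _ _ hx hy =>
      intro s
      rw [smul_add, Pi.add_apply, Pi.add_apply, coeff_add, coeff_add]
      linear_combination hx s + hy s
    | smul c x _ hx => intro s; rw [smul_smul]; exact hx _
  simpa using h 1

theorem aa_ann (r : RR) (h : r • aa = 0) (m : Fin 4 →₀ ℕ) (hm : IsLow m) : coeff m r = 0 := by
  have hB : (r • ((X 0 : RR) • (Pi.single 3 1 : Fin 6 → RR) + (X 1 : RR) • (Pi.single 4 1 : Fin 6 → RR)
      - (2 * X 2 : RR) • (Pi.single 5 1 : Fin 6 → RR))) ∈ BB := by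
    rw [← Quotient.mk_eq_zero, ← mkQ_apply, map_smul, map_sub, map_add, map_smul, map_smul, map_smul]
    exact h
  set v := (r • ((X 0 : RR) • (Pi.single 3 1 : Fin 6 → RR) + (X 1 : RR) • (Pi.single 4 1 : Fin 6 → RR)
      - (2 * X 2 : RR) • (Pi.single 5 1 : Fin 6 → RR))) with hv
  have v0 : v 0 = 0 := by simp [hv]
  have v1 : v 1 = 0 := by simp [hv]
  have v2 : v 2 = 0 := by simp [hv]
  have v3 : v 3 = r * X 0 := by simp [hv]
  have v4 : v 4 = r * X 1 := by simp [hv]
  have v5 : v 5 = - (C 2 * (r * X 2)) := by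
    have hc : (C 2 : RR) = 2 := map_ofNat C 2
    rw [hc]; simp [hv]; ring
  have hcases : m = Finsupp.single 3 (m 3) ∨ m = Finsupp.single 0 1 + Finsupp.single 3 (m 3) ∨
      m = Finsupp.single 1 1 + Finsupp.single 3 (m 3) ∨
      m = Finsupp.single 2 1 + Finsupp.single 3 (m 3) := by
    rw [IsLow] at hm
    have : (m 0 = 0 ∧ m 1 = 0 ∧ m 2 = 0) ∨ (m 0 = 1 ∧ m 1 = 0 ∧ m 2 = 0) ∨
        (m 0 = 0 ∧ m 1 = 1 ∧ m 2 = 0) ∨ (m 0 = 0 ∧ m 1 = 0 ∧ m 2 = 1) := by omega
    rcases this with ⟨h0, h1, h2⟩ | ⟨h0, h1, h2⟩ | ⟨h0, h1, h2⟩ | ⟨h0, h1, h2⟩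
    · left; ext i; fin_cases i <;> simp [h0, h1, h2]
    · right; left; ext i; fin_cases i <;> simp [h0, h1, h2]
    · right; right; left; ext i; fin_cases i <;> simp [h0, h1, h2]
    · right; right; right; ext i; fin_cases i <;> simp [h0, h1, h2]
  rcases hcases with h | h | h | h
  · have h1 := BB_low v hB 3 (m + Finsupp.single 0 1) (by rw [h]; simp [IsLow])
    rw [v3, coeff_mul_X] at h1
    exact h1
  · have h1 := BB_quad v hB 3 0 (m 3)
    rw [v0, v3, coeff_zero, add_zero, qexp, add_right_comm, coeff_mul_X, ← h] at h1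
    exact h1
  · have h1 := BB_quad v hB 4 1 (m 3)
    rw [v1, v4, coeff_zero, add_zero, qexp, add_right_comm, coeff_mul_X, ← h] at h1
    exact h1
  · have h1 := BB_quad v hB 5 2 (m 3)
    rw [v2, v5, coeff_zero, add_zero, qexp, add_right_comm, coeff_neg, coeff_C_mul,
      coeff_mul_X, ← h] at h1
    linarith

theorem exists_qexp_le (m : Fin 4 →₀ ℕ) (hm : ¬ IsLow m) : ∃ α, qexp α ≤ m := by
  rw [IsLow] at hm
  have key : 2 ≤ m 0 ∨ 2 ≤ m 1 ∨ 2 ≤ m 2 ∨ (1 ≤ m 1 ∧ 1 ≤ m 2) ∨ (1 ≤ m 0 ∧ 1 ≤ m 2) ∨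
      (1 ≤ m 0 ∧ 1 ≤ m 1) := by omega
  rcases key with h | h | h | h | h | h
  · exact ⟨0, fun i => by fin_cases i <;> simp [qexp]; omega⟩
  · exact ⟨1, fun i => by fin_cases i <;> simp [qexp]; omega⟩
  · exact ⟨2, fun i => by fin_cases i <;> simp [qexp]; omega⟩
  · exact ⟨3, fun i => by fin_cases i <;> simp [qexp] <;> omega⟩
  · exact ⟨4, fun i => by fin_cases i <;> simp [qexp] <;> omega⟩
  · exact ⟨5, fun i => by fin_cases i <;> simp [qexp] <;> omega⟩

theorem mem_range_mu (r : RR) (h : ∀ m, IsLow m → coeff m r = 0) : ∃ y : MM, mu y = r := by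
  have h1 : r ∈ LinearMap.range mu := by
    rw [r.as_sum]
    refine sum_mem fun m hm => ?_
    by_cases hl : IsLow m
    · rw [h m hl, monomial_zero]; exact zero_mem _
    · obtain ⟨α, hα⟩ := exists_qexp_le m hl
      refine ⟨monomial (m - qexp α) (coeff m r) • qq α, ?_⟩
      rw [map_smul, mu_qq, rq, smul_eq_mul, monomial_mul, mul_one, tsub_add_cancel_of_le hα]
  exact h1

/-- Exactness in high degrees. -/
theorem exactness (r : RR) (h : pderiv 3 r • aa = 0) (h0 : ∀ m, IsLow m → m 3 = 0 → coeff m r = 0) :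
    ∃ y : MM, mu y = r := by
  refine mem_range_mu r fun m hm => ?_
  by_cases h3 : m 3 = 0
  · exact h0 m hm h3
  · obtain ⟨k, hk⟩ := Nat.exists_eq_succ_of_ne_zero h3
    have hle : Finsupp.single 3 1 ≤ m := by
      rw [Finsupp.single_le_iff]; omega
    have hm' : IsLow (m - Finsupp.single 3 1) := by
      rw [IsLow] at hm ⊢
      simpa using hm
    have h1 := aa_ann _ h _ hm'
    rw [coeff_pderiv, tsub_add_cancel_of_le hle] at h1
    rcases mul_eq_zero.mp h1 with h2 | h2
    · exact h2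
    · exfalso
      have : (0 : ℚ) < ((m - Finsupp.single 3 1 : Fin 4 →₀ ℕ) 3 : ℚ) + 1 := by positivity
      exact this.ne' h2

/-- `mu` lands in the ideal `(e₀, e₁, e₂)^2`. -/
theorem eval_mu (y : MM) (f : Fin 4 → Polynomial ℚ) (h0 : f 0 = 0) (h1 : f 1 = 0) (h2 : f 2 = 0) :
    aeval f (mu y) = 0 := by
  have hy : y ∈ span RR (Set.range qq) := by rw [span_qq]; trivial
  induction hy using Submodule.span_induction with
  | mem y h =>
    obtain ⟨α, rfl⟩ := h
    rw [mu_qq, rq]
    fin_cases α <;>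
    · rw [aeval_monomial]
      simp only [qexp]
      rw [Finsupp.prod_add_index' (by simp) (by intros; rw [pow_add])]
      simp [h0, h1, h2]
  | zero => simp
  | add x y _ _ hx hy => rw [map_add, map_add, hx, hy, add_zero]
  | smul c x _ hx => rw [map_smul, smul_eq_mul, map_mul, hx, mul_zero]

end Pool.Agent.Lib.MP_3de1ca_gt
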