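import Pool.Agent.Lib.MP_3de1ca_gt.Der
import Pool.Agent.Lib.MP_3de1ca_gt.Target

set_option autoImplicit false

open Submodule MvPolynomial TrivSqZeroExt

namespace Pool.Agent.Lib.MP_3de1ca_gt

/-- The comparison algebra: square-zero extension. -/
abbrev TT : Type := TrivSqZeroExt RR MM

/-- its differential -/
noncomputable def dT : TT →ₗ[ℚ] TT where
  toFun t := inl (mu t.snd) + inr (pderiv 3 t.fst • aa)
  map_add' s t := by
    ext
    · simp
    · simp [add_smul]
  map_smul' c t := by
    ext
    · simp
    · simp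

theorem dT_apply (t : TT) : dT t = inl (mu t.snd) + inr (pderiv 3 t.fst • aa) := rfl

theorem dT_inl_mul (r : RR) (t : TT) : dT (inl r * t) = dT (inl r) * t + inl r * dT t := by
  simp only [dT_apply]
  ext
  · simp
  · simp [add_smul, smul_smul]
    abel

theorem dT_inr_mul (m : MM) (t : TT) : dT (inr m * t) = dT (inr m) * t - inr m * dT t := by
  simp only [dT_apply]
  ext
  · simp [mul_comm]
  · simp [mu_comm m]

variable {ι : Type} {deg : ι → ℕ}

open Classical in
/-- generator values -/
noncomputable def pval (deg : ι → ℕ) (r : ι → RR) (m : ι → MM) (i : ι) : TT :=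
  if Odd (deg i) then inr (m i) else inl (r i)

theorem pval_comm (r : ι → RR) (m : ι → MM) (i j : ι) : pval deg r m i * pval deg r m j =
    (-1 : ℚ) ^ (deg i * deg j) • (pval deg r m j * pval deg r m i) := by
  by_cases hi : Odd (deg i)
  · by_cases hj : Odd (deg j)
    · rw [pval, pval, if_pos hi, if_pos hj, inr_mul_inr, inr_mul_inr, smul_zero]
    · rw [(Nat.not_odd_iff_even.mp hj).mul_left _ |>.neg_one_pow, one_smul, mul_comm]
  · rw [(Nat.not_odd_iff_even.mp hi).mul_right _ |>.neg_one_pow, one_smul, mul_comm]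

/-- The algebra homomorphism `ΛV → T`. -/
noncomputable def psi (deg : ι → ℕ) (r : ι → RR) (m : ι → MM) : Lam deg →ₐ[ℚ] TT :=
  lift (pval deg r m) (pval_comm r m)

theorem psi_gen (r : ι → RR) (m : ι → MM) (i : ι) : psi deg r m (gen deg i) = pval deg r m i :=
  lift_gen _ _ i

theorem psi_word_cons (r : ι → RR) (m : ι → MM) (i : ι) (l : List ι) :
    psi deg r m (word deg (i :: l)) = pval deg r m i * psi deg r m (word deg l) := by
  rw [word_cons, map_mul, psi_gen]

theorem psi_word_congr (r : ι → RR) (m m' : ι → MM) (l : List ι) (h : ∀ i ∈ l, m i = m' i) :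
    psi deg r m (word deg l) = psi deg r m' (word deg l) := by
  induction l with
  | nil => simp
  | cons i l ih =>
    rw [psi_word_cons, psi_word_cons, ih (fun j hj => h j (List.mem_cons_of_mem _ hj)), pval, pval,
      h i List.mem_cons_self]

/-- `psi` is a chain map on words all of whose letters are compatible. -/
theorem psi_chain (r : ι → RR) (m : ι → MM) (δ : ι → Lam deg)
    (hδ : ∀ i, δ i ∈ gr deg (deg i + 1)) (l : List ι)
    (h : ∀ i ∈ l, psi deg r m (δ i) = dT (pval deg r m i)) :
    psi deg r m (der δ hδ (word deg l)) = dT (psi deg r m (word deg l)) := by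
  induction l with
  | nil =>
    rw [word_nil, der_one, map_zero, map_one, dT_apply]
    simp
  | cons i l ih =>
    rw [der_word_cons, map_add, map_smul, map_mul, map_mul, psi_gen, psi_word_cons,
      ih (fun j hj => h j (List.mem_cons_of_mem _ hj)), h i List.mem_cons_self]
    by_cases hi : Odd (deg i)
    · rw [pval, if_pos hi, dT_inr_mul, hi.neg_one_pow, neg_one_smul, sub_eq_add_neg]
    · rw [pval, if_neg hi, dT_inl_mul, (Nat.not_odd_iff_even.mp hi).neg_one_pow, one_smul]

/-- the weights of the variables -/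
def wt : Fin 4 → ℕ := ![2, 2, 2, 4]

theorem psi_word_parity (r : ι → RR) (m : ι → MM) (l : List ι) :
    (Odd (l.map deg).sum → (psi deg r m (word deg l)).fst = 0) ∧
    (¬ Odd (l.map deg).sum → (psi deg r m (word deg l)).snd = 0) := by
  induction l with
  | nil => simp
  | cons i l ih =>
    rw [psi_word_cons, List.map_cons, List.sum_cons]
    by_cases hi : Odd (deg i)
    · have h1 : pval deg r m i = inr (m i) := by rw [pval, if_pos hi]
      rw [h1]
      constructor
      · intro _; simp
      · intro h
        have h2 : Odd (l.map deg).sum := by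
          rw [Nat.odd_add] at h
          rw [← Nat.not_even_iff_odd]
          intro h3
          exact h ⟨fun _ => h3, fun _ => hi⟩
        have h3 := ih.1 h2
        simp [h3]
    · have h1 : pval deg r m i = inl (r i) := by rw [pval, if_neg hi]
      rw [h1]
      have hi' := Nat.not_odd_iff_even.mp hi
      constructor
      · intro h
        have h2 : Odd (l.map deg).sum := by
          rw [add_comm, Nat.odd_add] at h
          exact h.mpr hi'
        simp [ih.1 h2]
      · intro h
        have h2 : ¬ Odd (l.map deg).sum := by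
          intro h3
          apply h
          rw [add_comm, Nat.odd_add]
          exact ⟨fun _ => hi', fun _ => h3⟩
        simp [ih.2 h2]

theorem psi_word_weight (r : ι → RR) (m : ι → MM)
    (hr : ∀ i, ¬ Odd (deg i) → IsWeightedHomogeneous wt (r i) (deg i)) (l : List ι) :
    IsWeightedHomogeneous wt (psi deg r m (word deg l)).fst (l.map deg).sum := by
  induction l with
  | nil => simpa using isWeightedHomogeneous_one ℚ wt
  | cons i l ih =>
    rw [psi_word_cons, List.map_cons, List.sum_cons]
    by_cases hi : Odd (deg i)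
    · have h1 : pval deg r m i = inr (m i) := by rw [pval, if_pos hi]
      rw [h1]
      simp only [fst_mul, fst_inr, zero_mul]
      exact isWeightedHomogeneous_zero ℚ wt _
    · have h1 : pval deg r m i = inl (r i) := by rw [pval, if_neg hi]
      rw [h1]
      simp only [fst_mul, fst_inl]
      exact (hr i hi).mul ih

theorem psi_gr_even (r : ι → RR) (m : ι → MM)
    (hr : ∀ i, ¬ Odd (deg i) → IsWeightedHomogeneous wt (r i) (deg i)) {n : ℕ} (hn : ¬ Odd n)
    (c : Lam deg) (hc : c ∈ gr deg n) :
    (psi deg r m c).snd = 0 ∧ IsWeightedHomogeneous wt (psi deg r m c).fst n := by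
  refine gr_induction (p := fun c => (psi deg r m c).snd = 0 ∧
    IsWeightedHomogeneous wt (psi deg r m c).fst n) ?_ ?_ ?_ ?_ c hc
  · intro l hl
    subst hl
    exact ⟨(psi_word_parity r m l).2 hn, psi_word_weight r m hr l⟩
  · rw [map_zero]
    exact ⟨by simp, by simpa using isWeightedHomogeneous_zero ℚ wt _⟩
  · rintro x y ⟨hx, hx'⟩ ⟨hy, hy'⟩
    rw [map_add]
    refine ⟨by simp [hx, hy], ?_⟩
    rw [fst_add]
    exact (weightedHomogeneousSubmodule ℚ wt n).add_mem hx' hy'
  · rintro c x ⟨hx, hx'⟩
    rw [map_smul]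
    refine ⟨by simp [hx], ?_⟩
    rw [fst_smul]
    exact (weightedHomogeneousSubmodule ℚ wt n).smul_mem c hx'

theorem low_coeff_zero {r : RR} {n : ℕ} (hn : 4 ≤ n) (h : IsWeightedHomogeneous wt r n)
    (m : Fin 4 →₀ ℕ) (hm : IsLow m) (h3 : m 3 = 0) : coeff m r = 0 := by
  by_contra hne
  have h1 := h hne
  have h2 : Finsupp.weight wt m = 2 * m 0 + 2 * m 1 + 2 * m 2 + 4 * m 3 := by
    rw [Finsupp.weight_apply, Finsupp.sum_fintype _ _ (by simp)]
    simp [Fin.sum_univ_four, wt]
    ring
  rw [h2, h3] at h1
  rw [IsLow] at hm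
  omega

/-- Every even cocycle of degree at least four of the comparison algebra that comes from `ΛV` is
exact. -/
theorem exists_mu (r : ι → RR) (m : ι → MM)
    (hr : ∀ i, ¬ Odd (deg i) → IsWeightedHomogeneous wt (r i) (deg i)) {n : ℕ} (hn : ¬ Odd n)
    (hn4 : 4 ≤ n) (c : Lam deg) (hc : c ∈ gr deg n) (h0 : dT (psi deg r m c) = 0) :
    ∃ y : MM, inl (mu y) = psi deg r m c := by
  obtain ⟨h1, h2⟩ := psi_gr_even r m hr hn c hc
  have h3 : pderiv 3 (psi deg r m c).fst • aa = 0 := by
    have := congrArg TrivSqZeroExt.snd h0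
    simpa [dT_apply] using this
  obtain ⟨y, hy⟩ := exactness _ h3 (fun m hm hm3 => low_coeff_zero hn4 h2 m hm hm3)
  refine ⟨y, ?_⟩
  ext
  · rw [fst_inl, hy]
  · rw [snd_inl, h1]

end Pool.Agent.Lib.MP_3de1ca_gt
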