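import Mathlib

set_option autoImplicit false

namespace Pool.Agent.Lib.MP_3de1ca_gt

/-- The defining relations of the free graded-commutative `ℚ`-algebra on generators `v_i`, `i : ι`,
of degrees `deg i`: `v_i v_j = (-1)^(deg i * deg j) v_j v_i`.  (Over `ℚ` the case `i = j` gives
`v_i ^ 2 = 0` for `v_i` of odd degree.) -/
inductive GCRel {ι : Type} (deg : ι → ℕ) : FreeAlgebra ℚ ι → FreeAlgebra ℚ ι → Prop
  | comm (i j : ι) : GCRel deg (FreeAlgebra.ι ℚ i * FreeAlgebra.ι ℚ j)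
      ((-1 : ℚ) ^ (deg i * deg j) • (FreeAlgebra.ι ℚ j * FreeAlgebra.ι ℚ i))

/-- `ΛV`: the free graded-commutative `ℚ`-algebra on the graded vector space `V` with homogeneous
basis `(v_i)`, `i : ι`, where `v_i` has degree `deg i`. -/
def Lam {ι : Type} (deg : ι → ℕ) : Type := RingQuot (GCRel deg)

instance instRingLam {ι : Type} (deg : ι → ℕ) : Ring (Lam deg) :=
  inferInstanceAs (Ring (RingQuot (GCRel deg)))

instance instAlgebraLam {ι : Type} (deg : ι → ℕ) : Algebra ℚ (Lam deg) :=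
  inferInstanceAs (Algebra ℚ (RingQuot (GCRel deg)))

/-- The basis element `v_i` of `V`, as an element of `ΛV`. -/
noncomputable def gen {ι : Type} (deg : ι → ℕ) (i : ι) : Lam deg :=
  RingQuot.mkAlgHom ℚ (GCRel deg) (FreeAlgebra.ι ℚ i)

/-- The word (monomial) `v_{i_1} v_{i_2} ⋯ v_{i_k}` in `ΛV`. -/
noncomputable def word {ι : Type} (deg : ι → ℕ) (l : List ι) : Lam deg := (l.map (gen deg)).prod

/-- The homogeneous component `(ΛV)^n`, spanned by the words of total degree `n`. -/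
def gr {ι : Type} (deg : ι → ℕ) (n : ℕ) : Submodule ℚ (Lam deg) :=
  Submodule.span ℚ {a | ∃ l : List ι, (l.map deg).sum = n ∧ word deg l = a}

/-- `Λ^{≥ k} V`, spanned by the words of length at least `k`. -/
def lengthGE {ι : Type} (deg : ι → ℕ) (k : ℕ) : Submodule ℚ (Lam deg) :=
  Submodule.span ℚ {a | ∃ l : List ι, k ≤ l.length ∧ word deg l = a}

/-- The even part `⨁ (ΛV)^{2n}` of `ΛV`. -/
def evenPart {ι : Type} (deg : ι → ℕ) : Submodule ℚ (Lam deg) := ⨆ n : ℕ, gr deg (2 * n)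

/-- The ideal of `ΛV` generated by `V^{<k}`. -/
def lowIdeal {ι : Type} (deg : ι → ℕ) (k : ℕ) : Submodule ℚ (Lam deg) :=
  Submodule.span ℚ {c | ∃ (a b : Lam deg) (i : ι), deg i < k ∧ a * gen deg i * b = c}

/-- A minimal Sullivan algebra `(ΛV, d)` with `V = V^{≥ 2}`, presented by a homogeneous basis
`(v_i)`, `i : ι`, of `V`. -/
structure MinimalSullivan (ι : Type) where
  /-- the degree of the basis element `v_i` -/
  deg : ι → ℕ
  /-- `V` is concentrated in degrees at least two -/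
  two_le : ∀ i, 2 ≤ deg i
  /-- the differential -/
  d : Lam deg →ₗ[ℚ] Lam deg
  /-- `d` has degree `+1` -/
  d_mem : ∀ (n : ℕ) (a : Lam deg), a ∈ gr deg n → d a ∈ gr deg (n + 1)
  /-- the graded Leibniz rule -/
  d_mul : ∀ (n : ℕ) (a b : Lam deg), a ∈ gr deg n → d (a * b) = d a * b + (-1 : ℚ) ^ n • (a * d b)
  /-- `d ∘ d = 0` -/
  d_d : ∀ a, d (d a) = 0
  /-- minimality: `d V ⊆ Λ^{≥ 2} V` -/
  minimal : ∀ i, d (gen deg i) ∈ lengthGE deg 2

namespace MinimalSullivan

variable {ι : Type} (A : MinimalSullivan ι)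

/-- The even cocycles. -/
def Zeven : Submodule ℚ (Lam A.deg) := LinearMap.ker A.d ⊓ evenPart A.deg

/-- `H^even(ΛV, d)`: even cocycles modulo coboundaries. -/
abbrev Heven : Type := A.Zeven ⧸ (LinearMap.range A.d).comap A.Zeven.subtype

/-- The basis element `v_i` is nilpotent in `H(ΛV^{≥ deg v_i}, d̄)`, where `(ΛV^{≥k}, d̄)` is the
quotient of `(ΛV, d)` by the ideal generated by `V^{<k}`: some power `v_i ^ m`, `m ≥ 1`, is a
coboundary `d b` modulo that ideal (`k = deg v_i`). -/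
def IsNilpotentGen (i : ι) : Prop :=
  ∃ m : ℕ, 1 ≤ m ∧ ∃ b : Lam A.deg, (gen A.deg i) ^ m - A.d b ∈ lowIdeal A.deg (A.deg i)

end MinimalSullivan

end Pool.Agent.Lib.MP_3de1ca_gt
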