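import Pool.Agent.Lib.MP_3de1ca_gt.Free

set_option autoImplicit false

open Submodule

namespace Pool.Agent.Lib.MP_3de1ca_gt

variable {ι : Type} {deg : ι → ℕ}

/-- The matrices encoding a derivation. -/
noncomputable def derMat (deg : ι → ℕ) (δ : ι → Lam deg) (i : ι) : Matrix (Fin 2) (Fin 2) (Lam deg) :=
  !![(-1 : ℚ) ^ deg i • gen deg i, δ i; 0, gen deg i]

theorem derMat_comm (δ : ι → Lam deg) (hδ : ∀ i, δ i ∈ gr deg (deg i + 1)) (i j : ι) :
    derMat deg δ i * derMat deg δ j =
      (-1 : ℚ) ^ (deg i * deg j) • (derMat deg δ j * derMat deg δ i) := by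
  have hg := gen_comm (deg := deg) i j
  have h1 := graded_comm (hδ i) (gen_mem_gr (deg := deg) j)
  have h2 := graded_comm (gen_mem_gr (deg := deg) i) (hδ j)
  ext a b
  fin_cases a <;> fin_cases b
  · simp only [derMat, Matrix.mul_apply, Fin.sum_univ_two, Matrix.smul_apply, Matrix.of_apply,
      Matrix.cons_val', Matrix.cons_val_zero, Matrix.cons_val_one, Matrix.cons_val_fin_one,
      Fin.zero_eta, mul_zero, add_zero]
    rw [smul_mul_smul_comm, smul_mul_smul_comm, hg]
    rw [smul_comm, mul_comm ((-1 : ℚ) ^ deg i)]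
  · simp only [derMat, Matrix.mul_apply, Fin.sum_univ_two, Matrix.smul_apply, Matrix.of_apply,
      Matrix.cons_val', Matrix.cons_val_zero, Matrix.cons_val_one, Matrix.cons_val_fin_one,
      Fin.zero_eta, Fin.mk_one]
    rw [smul_mul_assoc, smul_mul_assoc, h1, h2, smul_add, smul_smul, smul_smul, add_comm]
    congr 1
    · congr 1
      rw [add_mul, pow_add, one_mul]
    · congr 1
      rw [mul_add, pow_add, mul_one, mul_comm]
      have : ((-1 : ℚ) ^ deg i) * ((-1 : ℚ) ^ deg i) = 1 := by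
        rw [← mul_pow]; simp
      rw [mul_assoc, this, mul_one]
  · simp [derMat, Matrix.mul_apply, Fin.sum_univ_two]
  · simp only [derMat, Matrix.mul_apply, Fin.sum_univ_two, Matrix.smul_apply, Matrix.of_apply,
      Matrix.cons_val', Matrix.cons_val_zero, Matrix.cons_val_one, Matrix.cons_val_fin_one,
      Fin.mk_one, zero_mul, zero_add]
    exact hg

/-- The algebra homomorphism encoding the derivation. -/
noncomputable def derHom (δ : ι → Lam deg) (hδ : ∀ i, δ i ∈ gr deg (deg i + 1)) :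
    Lam deg →ₐ[ℚ] Matrix (Fin 2) (Fin 2) (Lam deg) :=
  lift (derMat deg δ) (derMat_comm δ hδ)

theorem derHom_gen (δ : ι → Lam deg) (hδ : ∀ i, δ i ∈ gr deg (deg i + 1)) (i : ι) :
    derHom δ hδ (gen deg i) = derMat deg δ i := lift_gen _ _ i

/-- The derivation `d` with `d v_i = δ i`. -/
noncomputable def der (δ : ι → Lam deg) (hδ : ∀ i, δ i ∈ gr deg (deg i + 1)) :
    Lam deg →ₗ[ℚ] Lam deg where
  toFun a := derHom δ hδ a 0 1
  map_add' a b := by simp
  map_smul' c a := by simp

theorem der_apply (δ : ι → Lam deg) (hδ : ∀ i, δ i ∈ gr deg (deg i + 1)) (a : Lam deg) :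
    der δ hδ a = derHom δ hδ a 0 1 := rfl

theorem der_gen (δ : ι → Lam deg) (hδ : ∀ i, δ i ∈ gr deg (deg i + 1)) (i : ι) :
    der δ hδ (gen deg i) = δ i := by
  rw [der_apply, derHom_gen]; simp [derMat]

theorem derHom_10 (δ : ι → Lam deg) (hδ : ∀ i, δ i ∈ gr deg (deg i + 1)) (a : Lam deg) :
    derHom δ hδ a 1 0 = 0 ∧ derHom δ hδ a 1 1 = a := by
  refine word_induction (p := fun a => derHom δ hδ a 1 0 = 0 ∧ derHom δ hδ a 1 1 = a) ?_ ?_ ?_ ?_ a
  · intro l
    induction l with
    | nil => simp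
    | cons i l ih =>
      rw [word_cons, map_mul, derHom_gen]
      constructor
      · rw [Matrix.mul_apply, Fin.sum_univ_two, ih.1]; simp [derMat]
      · rw [Matrix.mul_apply, Fin.sum_univ_two, ih.2]; simp [derMat]
  · simp
  · intro x y hx hy; simp [hx, hy]
  · intro c x hx; simp [hx]

theorem derHom_00 (δ : ι → Lam deg) (hδ : ∀ i, δ i ∈ gr deg (deg i + 1)) {n : ℕ} (a : Lam deg)
    (ha : a ∈ gr deg n) : derHom δ hδ a 0 0 = (-1 : ℚ) ^ n • a := by
  refine gr_induction (p := fun a => derHom δ hδ a 0 0 = (-1 : ℚ) ^ n • a) ?_ ?_ ?_ ?_ a ha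
  · intro l hl
    clear ha
    subst hl
    induction l with
    | nil => simp
    | cons i l ih =>
      have h10 := (derHom_10 δ hδ (word deg l)).1
      have ih' := ih
      rw [word_cons, map_mul, derHom_gen, Matrix.mul_apply, Fin.sum_univ_two, h10, ih', mul_zero,
        add_zero, List.map_cons, List.sum_cons, pow_add]
      simp only [derMat, Matrix.of_apply, Matrix.cons_val', Matrix.cons_val_zero,
        Matrix.cons_val_fin_one]
      rw [smul_mul_smul_comm]
  · simp
  · intro x y hx hy; rw [map_add, smul_add, ← hx, ← hy]; rfl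
  · intro c x hx; rw [map_smul, smul_comm, ← hx]; rfl

theorem der_mul (δ : ι → Lam deg) (hδ : ∀ i, δ i ∈ gr deg (deg i + 1)) {n : ℕ} (a b : Lam deg)
    (ha : a ∈ gr deg n) :
    der δ hδ (a * b) = der δ hδ a * b + (-1 : ℚ) ^ n • (a * der δ hδ b) := by
  rw [der_apply, map_mul, Matrix.mul_apply, Fin.sum_univ_two, derHom_00 δ hδ a ha,
    (derHom_10 δ hδ b).2, ← der_apply, ← der_apply, smul_mul_assoc, add_comm]

theorem der_word_cons (δ : ι → Lam deg) (hδ : ∀ i, δ i ∈ gr deg (deg i + 1)) (i : ι) (l : List ι) :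
    der δ hδ (word deg (i :: l)) =
      δ i * word deg l + (-1 : ℚ) ^ deg i • (gen deg i * der δ hδ (word deg l)) := by
  rw [word_cons, der_mul δ hδ _ _ (gen_mem_gr i), der_gen]

theorem der_one (δ : ι → Lam deg) (hδ : ∀ i, δ i ∈ gr deg (deg i + 1)) : der δ hδ 1 = 0 := by
  rw [der_apply, map_one]; simp

theorem der_mem (δ : ι → Lam deg) (hδ : ∀ i, δ i ∈ gr deg (deg i + 1)) (n : ℕ) (a : Lam deg)
    (ha : a ∈ gr deg n) : der δ hδ a ∈ gr deg (n + 1) := by
  refine gr_induction (p := fun a => der δ hδ a ∈ gr deg (n + 1)) ?_ ?_ ?_ ?_ a ha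
  · intro l hl
    clear ha
    subst hl
    induction l with
    | nil => rw [word_nil, der_one]; exact zero_mem _
    | cons i l ih =>
      have ih' := ih
      rw [der_word_cons, List.map_cons, List.sum_cons]
      refine add_mem ?_ (smul_mem _ _ ?_)
      · have := mul_mem_gr (hδ i) (word_mem_gr (deg := deg) l)
        rwa [add_right_comm] at this
      · have := mul_mem_gr (gen_mem_gr (deg := deg) i) ih'
        rwa [← add_assoc] at this
  · rw [map_zero]; exact zero_mem _
  · intro x y hx hy; rw [map_add]; exact add_mem hx hy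
  · intro c x hx; rw [map_smul]; exact smul_mem _ _ hx

theorem der_der (δ : ι → Lam deg) (hδ : ∀ i, δ i ∈ gr deg (deg i + 1))
    (h0 : ∀ i, der δ hδ (δ i) = 0) (a : Lam deg) : der δ hδ (der δ hδ a) = 0 := by
  refine word_induction (p := fun a => der δ hδ (der δ hδ a) = 0) ?_ ?_ ?_ ?_ a
  · intro l
    induction l with
    | nil => rw [word_nil, der_one, map_zero]
    | cons i l ih =>
      rw [der_word_cons, map_add, map_smul, der_mul δ hδ _ _ (hδ i), der_mul δ hδ _ _ (gen_mem_gr i),
        h0 i, ih, der_gen, mul_zero, smul_zero, add_zero, zero_mul, zero_add, pow_succ,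
        mul_neg, mul_one, neg_smul, neg_add_cancel]
  · rw [map_zero, map_zero]
  · intro x y hx hy; rw [map_add, map_add, hx, hy, add_zero]
  · intro c x hx; rw [map_smul, map_smul, hx, smul_zero]

theorem der_word_congr (δ δ' : ι → Lam deg) (hδ : ∀ i, δ i ∈ gr deg (deg i + 1))
    (hδ' : ∀ i, δ' i ∈ gr deg (deg i + 1)) (l : List ι) (h : ∀ i ∈ l, δ i = δ' i) :
    der δ hδ (word deg l) = der δ' hδ' (word deg l) := by
  induction l with
  | nil => rw [word_nil, der_one, der_one]
  | cons i l ih =>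
    rw [der_word_cons, der_word_cons, ih (fun j hj => h j (List.mem_cons_of_mem _ hj)),
      h i List.mem_cons_self]

theorem proj_der (δ : ι → Lam deg) (hδ : ∀ i, δ i ∈ gr deg (deg i + 1)) (n : ℕ) (a : Lam deg) :
    proj deg (n + 1) (der δ hδ a) = der δ hδ (proj deg n a) := by
  refine word_induction (p := fun a => proj deg (n + 1) (der δ hδ a) = der δ hδ (proj deg n a))
    ?_ ?_ ?_ ?_ a
  · intro l
    have h1 := der_mem δ hδ _ _ (word_mem_gr (deg := deg) l)
    rw [proj_word]
    by_cases h : (l.map deg).sum = n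
    · rw [if_pos h, ← h, proj_of_mem h1]
    · rw [if_neg h, map_zero, proj_of_mem_ne _ h1]
      omega
  · simp
  · intro x y hx hy; simp only [map_add, hx, hy]
  · intro c x hx; simp only [map_smul, hx]

end Pool.Agent.Lib.MP_3de1ca_gt
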