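import Pool.Agent.Lib.MP_3de1ca_gt.Example

set_option autoImplicit false

open Submodule MvPolynomial TrivSqZeroExt

namespace Pool.Agent.Lib.MP_3de1ca_gt

/-- A projection onto a subspace. -/
noncomputable def Pz (Z : Submodule ℚ (Lam dg)) : Lam dg →ₗ[ℚ] Lam dg :=
  Z.subtype ∘ₗ (Z.subtype.exists_leftInverse_of_injective (ker_subtype Z)).choose

theorem Pz_mem (Z : Submodule ℚ (Lam dg)) (a : Lam dg) : Pz Z a ∈ Z := by
  rw [Pz, LinearMap.comp_apply]
  exact Submodule.coe_mem _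

theorem Pz_eq (Z : Submodule ℚ (Lam dg)) (a : Lam dg) (h : a ∈ Z) : Pz Z a = a := by
  have h1 := (Z.subtype.exists_leftInverse_of_injective (ker_subtype Z)).choose_spec
  have h2 := LinearMap.congr_fun h1 ⟨a, h⟩
  rw [LinearMap.comp_apply] at h2
  rw [Pz, LinearMap.comp_apply]
  change Z.subtype ((Z.subtype.exists_leftInverse_of_injective (ker_subtype Z)).choose
    (Z.subtype ⟨a, h⟩)) = a
  rw [h2]
  rfl

/-- The derivation attached to an arbitrary function (made homogeneous by projecting). -/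
noncomputable def derC (δ : II → Lam dg) : Lam dg →ₗ[ℚ] Lam dg :=
  der (fun i => proj dg (dg i + 1) (δ i)) (fun _ => proj_mem _ _)

/-- first and second letters of the quadratic monomials -/
def pa : Fin 6 → Fin 3 := ![0, 1, 2, 1, 0, 0]
def pb : Fin 6 → Fin 3 := ![0, 1, 2, 2, 2, 1]

/-- The differential on the generators. -/
noncomputable def delta : II → Lam dg
  | ⟨Code.e _, _⟩ => 0
  | ⟨Code.q α, _⟩ => gen dg (Ie (pa α)) * gen dg (Ie (pb α))
  | ⟨Code.x, _⟩ => gen dg (Ie 0) * gen dg (Iq 3) + gen dg (Ie 1) * gen dg (Iq 4) -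
      (2 : ℚ) • (gen dg (Ie 2) * gen dg (Iq 5))
  | ⟨Code.h n f, hv⟩ =>
      Pz (gr dg (dg ⟨Code.h n f, hv⟩ + 1) ⊓ LinearMap.ker (derC (fun j =>
        if _h : dg j < dg ⟨Code.h n f, hv⟩ then delta j else 0))) (word dg (lst n f hv))
termination_by i => dg i

theorem delta_Ie (k : Fin 3) : delta (Ie k) = 0 := delta.eq_1 k trivial

theorem delta_Iq (α : Fin 6) : delta (Iq α) = gen dg (Ie (pa α)) * gen dg (Ie (pb α)) :=
  delta.eq_2 α trivial

theorem delta_Ix : delta Ix = gen dg (Ie 0) * gen dg (Iq 3) + gen dg (Ie 1) * gen dg (Iq 4) -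
      (2 : ℚ) • (gen dg (Ie 2) * gen dg (Iq 5)) := delta.eq_3 trivial

/-- truncated differential -/
noncomputable def deltaLT (n : ℕ) (j : II) : Lam dg := if dg j < n then delta j else 0

/-- the cocycle space that is killed in degree `n + 1` -/
noncomputable def ZZ (n : ℕ) : Submodule ℚ (Lam dg) :=
  gr dg (n + 1) ⊓ LinearMap.ker (derC (deltaLT n))

theorem delta_h (n : ℕ) (f : Fin n → Code) (hv : (Code.h n f).Valid) :
    delta ⟨Code.h n f, hv⟩ = Pz (ZZ (dg ⟨Code.h n f, hv⟩)) (word dg (lst n f hv)) := by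
  rw [delta]
  rfl

theorem II_cases {p : II → Prop} (he : ∀ k, p (Ie k)) (hq : ∀ α, p (Iq α)) (hx : p Ix)
    (hh : ∀ n f (hv : (Code.h n f).Valid), p ⟨Code.h n f, hv⟩) (i : II) : p i := by
  obtain ⟨c, hc⟩ := i
  cases c with
  | e k => exact he k
  | q α => exact hq α
  | x => exact hx
  | h n f => exact hh n f hc

theorem dg_Ie (k : Fin 3) : dg (Ie k) = 2 := rfl
theorem dg_Iq (α : Fin 6) : dg (Iq α) = 3 := rfl
theorem dg_Ix : dg Ix = 4 := rfl

theorem delta_mem (i : II) : delta i ∈ gr dg (dg i + 1) := by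
  refine II_cases (p := fun i => delta i ∈ gr dg (dg i + 1)) ?_ ?_ ?_ ?_ i
  · intro k; rw [delta_Ie]; exact zero_mem _
  · intro α; rw [delta_Iq]
    have := mul_mem_gr (gen_mem_gr (deg := dg) (Ie (pa α))) (gen_mem_gr (Ie (pb α)))
    exact this
  · rw [delta_Ix]
    refine sub_mem (add_mem ?_ ?_) (smul_mem _ _ ?_)
    · have := mul_mem_gr (gen_mem_gr (deg := dg) (Ie 0)) (gen_mem_gr (Iq 3))
      exact this
    · have := mul_mem_gr (gen_mem_gr (deg := dg) (Ie 1)) (gen_mem_gr (Iq 4))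
      exact this
    · have := mul_mem_gr (gen_mem_gr (deg := dg) (Ie 2)) (gen_mem_gr (Iq 5))
      exact this
  · intro n f hv
    rw [delta_h]
    have := Pz_mem (ZZ (dg ⟨Code.h n f, hv⟩)) (word dg (lst n f hv))
    exact this.1

/-- The differential. -/
noncomputable def DD : Lam dg →ₗ[ℚ] Lam dg := der delta delta_mem

theorem derC_word (n : ℕ) (l : List II) (h : ∀ i ∈ l, dg i < n) :
    derC (deltaLT n) (word dg l) = DD (word dg l) := by
  refine der_word_congr _ _ _ _ l fun i hi => ?_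
  rw [deltaLT, if_pos (h i hi), proj_of_mem (delta_mem i)]

theorem derC_gr (n : ℕ) (hn : Even (n + 1)) (h6 : 6 ≤ n + 1) (c : Lam dg) (hc : c ∈ gr dg (n + 1)) :
    derC (deltaLT n) c = DD c := by
  refine gr_induction (p := fun c => derC (deltaLT n) c = DD c) ?_ ?_ ?_ ?_ c hc
  · intro l hl
    refine derC_word n l fun i hi => ?_
    have := letters_lt l (by rw [hl]; exact hn) (by rw [hl]; exact h6) i hi
    omega
  · rw [map_zero, map_zero]
  · intro x y hx hy; rw [map_add, map_add, hx, hy]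
  · intro c x hx; rw [map_smul, map_smul, hx]

theorem dg_h (n : ℕ) (f : Fin n → Code) (hv : (Code.h n f).Valid) :
    Even (dg ⟨Code.h n f, hv⟩ + 1) ∧ 6 ≤ dg ⟨Code.h n f, hv⟩ + 1 := by
  have h1 := hv.2.2.1
  have h2 := hv.2.2.2
  simp only [dg, Code.cdeg]
  obtain ⟨a, ha⟩ := h1
  exact ⟨⟨a, by omega⟩, by omega⟩

theorem DD_gen (i : II) : DD (gen dg i) = delta i := der_gen _ _ i

theorem DD_mul_gen (i : II) (b : Lam dg) :
    DD (gen dg i * b) = delta i * b + (-1 : ℚ) ^ dg i • (gen dg i * DD b) := by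
  rw [DD, der_mul _ _ _ _ (gen_mem_gr i), der_gen]

theorem comm_Ie (j k : Fin 3) :
    gen dg (Ie j) * gen dg (Ie k) = gen dg (Ie k) * gen dg (Ie j) := by
  rw [gen_comm, dg_Ie, dg_Ie, (show Even (2 * 2) by decide).neg_one_pow, one_smul]

theorem DD_delta (i : II) : DD (delta i) = 0 := by
  refine II_cases (p := fun i => DD (delta i) = 0) ?_ ?_ ?_ ?_ i
  · intro k; rw [delta_Ie, map_zero]
  · intro α
    rw [delta_Iq, DD_mul_gen, DD_gen, delta_Ie, delta_Ie, zero_mul, mul_zero, smul_zero, add_zero]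
  · rw [delta_Ix, map_sub, map_add, map_smul, DD_mul_gen, DD_mul_gen, DD_mul_gen, DD_gen, DD_gen,
      DD_gen, delta_Ie, delta_Ie, delta_Ie, delta_Iq, delta_Iq, delta_Iq, dg_Ie, dg_Ie, dg_Ie]
    have h3 : pa 3 = 1 ∧ pb 3 = 2 := ⟨rfl, rfl⟩
    have h4 : pa 4 = 0 ∧ pb 4 = 2 := ⟨rfl, rfl⟩
    have h5 : pa 5 = 0 ∧ pb 5 = 1 := ⟨rfl, rfl⟩
    rw [h3.1, h3.2, h4.1, h4.2, h5.1, h5.2]
    have e1 : gen dg (Ie 1) * (gen dg (Ie 0) * gen dg (Ie 2)) =
        gen dg (Ie 0) * (gen dg (Ie 1) * gen dg (Ie 2)) := by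
      rw [← mul_assoc, comm_Ie 1 0, mul_assoc]
    have e2 : gen dg (Ie 2) * (gen dg (Ie 0) * gen dg (Ie 1)) =
        gen dg (Ie 0) * (gen dg (Ie 1) * gen dg (Ie 2)) := by
      rw [← mul_assoc, comm_Ie 2 0, mul_assoc, comm_Ie 2 1]
    rw [e1, e2]
    simp only [zero_mul, zero_add, even_two.neg_one_pow, one_smul]
    rw [two_smul]
    abel
  · intro n f hv
    have h1 := Pz_mem (ZZ (dg ⟨Code.h n f, hv⟩)) (word dg (lst n f hv))
    rw [← delta_h] at h1
    obtain ⟨h2, h3⟩ := h1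
    rw [SetLike.mem_coe, LinearMap.mem_ker, derC_gr _ (dg_h n f hv).1 (dg_h n f hv).2 _ h2] at h3
    exact h3

theorem DD_DD (a : Lam dg) : DD (DD a) = 0 := der_der _ _ DD_delta a

/-- Even cocycles of degree at least six are exact. -/
theorem exact_even (n : ℕ) (hn : Even (n + 1)) (h6 : 6 ≤ n + 1) (c : Lam dg) (hc : c ∈ gr dg (n + 1))
    (h0 : DD c = 0) : ∃ b, DD b = c := by
  have h1 : ∀ c ∈ gr dg (n + 1), Pz (ZZ n) c ∈ LinearMap.range DD := by
    intro c hc
    refine gr_induction (p := fun c => Pz (ZZ n) c ∈ LinearMap.range DD) ?_ ?_ ?_ ?_ c hc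
    · intro l hl
      obtain ⟨hv, hdg⟩ := exists_code l (by rw [hl]; exact hn) (by rw [hl]; exact h6)
      refine ⟨gen dg ⟨Code.h l.length (fun i => (l.get i).1), hv⟩, ?_⟩
      rw [DD_gen, delta_h, lst_get]
      have hn' : dg ⟨Code.h l.length (fun i => (l.get i).1), hv⟩ = n := by omega
      rw [hn']
    · rw [map_zero]; exact zero_mem _
    · intro x y hx hy; rw [map_add]; exact add_mem hx hy
    · intro c x hx; rw [map_smul]; exact smul_mem _ _ hx
  have h2 : c ∈ ZZ n := by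
    refine ⟨hc, ?_⟩
    rw [SetLike.mem_coe, LinearMap.mem_ker, derC_gr n hn h6 c hc, h0]
  have h3 := h1 c hc
  rw [Pz_eq _ _ h2] at h3
  exact h3

end Pool.Agent.Lib.MP_3de1ca_gt
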