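import Pool.Agent.Lib.MP_3de1ca_gt.Compare

set_option autoImplicit false

open Submodule MvPolynomial TrivSqZeroExt

namespace Pool.Agent.Lib.MP_3de1ca_gt

/-- Codes for generators: `e i` (degree 2), `q α` (degree 3), `x` (degree 4), and `h n f`, coding a
word of length `n`, of degree one less than the total degree of that word. -/
inductive Code : Type
  | e (i : Fin 3) : Code
  | q (α : Fin 6) : Code
  | x : Code
  | h (n : ℕ) (f : Fin n → Code) : Code

namespace Code

/-- degree -/
def cdeg : Code → ℕ
  | e _ => 2
  | q _ => 3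
  | x => 4
  | h _ f => (∑ i, cdeg (f i)) - 1

/-- valid codes: the coded word has length at least two, even total degree at least six, and
its letters are valid -/
def Valid : Code → Prop
  | e _ => True
  | q _ => True
  | x => True
  | h n f => 2 ≤ n ∧ (∀ i, Valid (f i)) ∧ Even (∑ i, cdeg (f i)) ∧ 6 ≤ ∑ i, cdeg (f i)

theorem two_le_cdeg (c : Code) (hc : c.Valid) : 2 ≤ c.cdeg := by
  cases c with
  | e i => simp [cdeg]
  | q α => simp [cdeg]
  | x => simp [cdeg]
  | h n f =>
    obtain ⟨_, _, _, h⟩ := hc
    simp only [cdeg]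
    omega

end Code

/-- The generators. -/
abbrev II : Type := {c : Code // c.Valid}

/-- degrees -/
def dg (i : II) : ℕ := i.1.cdeg

def Ie (k : Fin 3) : II := ⟨Code.e k, trivial⟩
def Iq (α : Fin 6) : II := ⟨Code.q α, trivial⟩
def Ix : II := ⟨Code.x, trivial⟩

theorem two_le_dg (i : II) : 2 ≤ dg i := Code.two_le_cdeg i.1 i.2

theorem even_dg (i : II) (h : Even (dg i)) : (∃ k, i = Ie k) ∨ i = Ix := by
  obtain ⟨c, hc⟩ := i
  cases c with
  | e k => exact Or.inl ⟨k, rfl⟩
  | q α => exfalso; simp [dg, Code.cdeg] at h; revert h; decide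
  | x => exact Or.inr rfl
  | h n f =>
    exfalso
    obtain ⟨_, _, h1, h2⟩ := hc
    simp only [dg, Code.cdeg] at h
    obtain ⟨a, ha⟩ := h1
    obtain ⟨b, hb⟩ := h
    omega

/-- For every word of even total degree at least six there is a generator coding it. -/
theorem exists_code (l : List II) (h : Even (l.map dg).sum) (h6 : 6 ≤ (l.map dg).sum) :
    ∃ hv : (Code.h l.length (fun i => (l.get i).1)).Valid,
      dg ⟨Code.h l.length (fun i => (l.get i).1), hv⟩ + 1 = (l.map dg).sum := by
  have hsum : ∑ i : Fin l.length, Code.cdeg (l.get i).1 = (l.map dg).sum := by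
    rw [← List.sum_ofFn]
    congr 1
    apply List.ext_get
    · simp
    · intro n h1 h2
      simp [dg]
  have hlen : 2 ≤ l.length := by
    by_contra hcon
    have : l.length = 0 ∨ l.length = 1 := by omega
    rcases this with h0 | h1
    · rw [List.length_eq_zero_iff] at h0
      subst h0
      simp at h6
    · rw [List.length_eq_one_iff] at h1
      obtain ⟨i, rfl⟩ := h1
      simp only [List.map_cons, List.map_nil, List.sum_cons, List.sum_nil, add_zero] at h h6
      rcases even_dg i h with ⟨k, rfl⟩ | rfl
      · simp [dg, Ie, Code.cdeg] at h6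
      · simp [dg, Ix, Code.cdeg] at h6
  have hv : (Code.h l.length (fun i => (l.get i).1)).Valid := by
    refine ⟨hlen, fun i => (l.get i).2, ?_, ?_⟩
    · rw [hsum]; exact h
    · rw [hsum]; exact h6
  refine ⟨hv, ?_⟩
  simp only [dg, Code.cdeg]
  rw [hsum]
  omega

/-- The list coded by a generator `h`. -/
def lst (n : ℕ) (f : Fin n → Code) (hv : (Code.h n f).Valid) : List II :=
  List.ofFn (fun i => (⟨f i, hv.2.1 i⟩ : II))

theorem lst_get (l : List II) (hv : (Code.h l.length (fun i => (l.get i).1)).Valid) :
    lst l.length (fun i => (l.get i).1) hv = l := by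
  rw [lst]
  apply List.ext_get
  · simp
  · intro n h1 h2
    simp

theorem lst_sum (n : ℕ) (f : Fin n → Code) (hv : (Code.h n f).Valid) :
    ((lst n f hv).map dg).sum = dg ⟨Code.h n f, hv⟩ + 1 := by
  have h6 := hv.2.2.2
  simp only [dg, Code.cdeg, lst, List.map_ofFn, List.sum_ofFn, Function.comp_def]
  omega

theorem length_mul_two_le (l : List II) : 2 * l.length ≤ (l.map dg).sum := by
  induction l with
  | nil => simp
  | cons i l ih =>
    have := two_le_dg i
    simp only [List.length_cons, List.map_cons, List.sum_cons]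
    omega

/-- In a word of even total degree `n ≥ 6` all letters have degree `< n - 1`. -/
theorem letters_lt (l : List II) (h : Even (l.map dg).sum) (h6 : 6 ≤ (l.map dg).sum) :
    ∀ i ∈ l, dg i + 1 < (l.map dg).sum := by
  intro i hi
  obtain ⟨l₁, l₂, rfl⟩ := List.append_of_mem hi
  have h1 := length_mul_two_le l₁
  have h2 := length_mul_two_le l₂
  simp only [List.map_append, List.map_cons, List.sum_append, List.sum_cons] at h h6 ⊢
  by_contra hcon
  have h3 : l₁.length = 0 ∧ l₂.length = 0 := by omega
  rw [List.length_eq_zero_iff, List.length_eq_zero_iff] at h3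
  obtain ⟨rfl, rfl⟩ := h3
  simp only [List.map_nil, List.sum_nil, zero_add, add_zero] at h h6
  rcases even_dg i h with ⟨k, rfl⟩ | rfl
  · simp [dg, Ie, Code.cdeg] at h6
  · simp [dg, Ix, Code.cdeg] at h6

/-! ### finiteness of type -/

theorem finite_le (n : ℕ) : {i : II | dg i ≤ n}.Finite := by
  induction n using Nat.strong_induction_on with
  | _ n ih =>
    have h1 : {c : Code | ∃ hc : c.Valid, dg ⟨c, hc⟩ ≤ n}.Finite := by
      rcases Nat.eq_zero_or_pos n with rfl | hn
      · refine Set.Finite.subset Set.finite_empty ?_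
        rintro c ⟨hc, hle⟩
        have := two_le_dg ⟨c, hc⟩
        omega
      have ih' : {c : Code | ∃ hc : c.Valid, dg ⟨c, hc⟩ ≤ n - 1}.Finite := by
        have := (ih (n - 1) (by omega)).image Subtype.val
        refine this.subset ?_
        rintro c ⟨hc, hle⟩
        exact ⟨⟨c, hc⟩, hle, rfl⟩
      have hfin : (Set.range Code.e ∪ Set.range Code.q ∪ {Code.x} ∪
          ⋃ k ∈ Finset.range (n + 2), (Code.h k) '' (Set.pi Set.univ fun _ : Fin k =>
            {c : Code | ∃ hc : c.Valid, dg ⟨c, hc⟩ ≤ n - 1})).Finite := by
        refine Set.Finite.union (Set.Finite.union (Set.Finite.union (Set.finite_range _)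
          (Set.finite_range _)) (Set.finite_singleton _)) ?_
        refine Set.Finite.biUnion (Finset.finite_toSet _) fun k _ => ?_
        exact (Set.Finite.pi' fun _ => ih').image _ |>.subset (by
          apply Set.image_mono
          intro f hf i
          exact hf i (Set.mem_univ i))
      refine hfin.subset ?_
      rintro c ⟨hc, hle⟩
      cases c with
      | e k => exact Or.inl (Or.inl (Or.inl ⟨k, rfl⟩))
      | q α => exact Or.inl (Or.inl (Or.inr ⟨α, rfl⟩))
      | x => exact Or.inl (Or.inr rfl)
      | h k f =>
        right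
        have hs := lst_sum k f hc
        have hl := letters_lt (lst k f hc) (by
          rw [hs]
          have h2 := hc.2.2.1
          have h3 := hc.2.2.2
          simp only [dg, Code.cdeg]
          obtain ⟨a, ha⟩ := h2
          exact ⟨a, by omega⟩) (by
          rw [hs]
          have h3 := hc.2.2.2
          simp only [dg, Code.cdeg]
          omega)
        have hlen := length_mul_two_le (lst k f hc)
        rw [hs] at hlen hl
        have hk : (lst k f hc).length = k := by simp [lst]
        rw [hk] at hlen
        simp only [Set.mem_iUnion]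
        refine ⟨k, by simp; omega, f, ?_, rfl⟩
        intro i _
        refine ⟨hc.2.1 i, ?_⟩
        have := hl ⟨f i, hc.2.1 i⟩ (by rw [lst, List.mem_ofFn]; exact ⟨i, rfl⟩)
        omega
    have h2 := h1.preimage (Subtype.val_injective.injOn (s := Subtype.val ⁻¹' _) : Set.InjOn
      (Subtype.val : II → Code) _)
    refine h2.subset ?_
    intro i hi
    exact ⟨i.2, hi⟩

end Pool.Agent.Lib.MP_3de1ca_gt
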