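import Pool.Agent.Lib.MP_3de1ca_gt.Defs

set_option autoImplicit false

open Submodule Polynomial

namespace Pool.Agent.Lib.MP_3de1ca_gt

variable {ι : Type} {deg : ι → ℕ}

theorem gen_comm (i j : ι) :
    gen deg i * gen deg j = (-1 : ℚ) ^ (deg i * deg j) • (gen deg j * gen deg i) := by
  have h := RingQuot.mkAlgHom_rel ℚ (GCRel.comm (deg := deg) i j)
  rw [map_mul, map_smul, map_mul] at h
  exact h

/-- The universal property. -/
noncomputable def lift {B : Type} [Ring B] [Algebra ℚ B] (f : ι → B)
    (hf : ∀ i j, f i * f j = (-1 : ℚ) ^ (deg i * deg j) • (f j * f i)) : Lam deg →ₐ[ℚ] B :=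
  RingQuot.liftAlgHom ℚ ⟨FreeAlgebra.lift ℚ f, by
    rintro _ _ ⟨i, j⟩
    rw [map_mul, map_smul, map_mul, FreeAlgebra.lift_ι_apply, FreeAlgebra.lift_ι_apply]
    exact hf i j⟩

theorem lift_gen {B : Type} [Ring B] [Algebra ℚ B] (f : ι → B)
    (hf : ∀ i j, f i * f j = (-1 : ℚ) ^ (deg i * deg j) • (f j * f i)) (i : ι) :
    lift f hf (gen deg i) = f i := by
  have h := RingQuot.liftAlgHom_mkAlgHom_apply ℚ (s := GCRel deg) (FreeAlgebra.lift ℚ f) (by
    rintro _ _ ⟨i, j⟩
    rw [map_mul, map_smul, map_mul, FreeAlgebra.lift_ι_apply, FreeAlgebra.lift_ι_apply]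
    exact hf i j) (FreeAlgebra.ι ℚ i)
  rw [FreeAlgebra.lift_ι_apply] at h
  exact h

theorem algHom_ext' {B : Type} [Ring B] [Algebra ℚ B] {φ ψ : Lam deg →ₐ[ℚ] B}
    (h : ∀ i, φ (gen deg i) = ψ (gen deg i)) : φ = ψ := by
  have h1 : (φ : RingQuot (GCRel deg) →ₐ[ℚ] B) = ψ := by
    apply RingQuot.ringQuot_ext'
    apply FreeAlgebra.hom_ext
    funext i
    exact h i
  exact h1

@[simp] theorem word_nil : word deg [] = 1 := rfl

@[simp] theorem word_cons (i : ι) (l : List ι) : word deg (i :: l) = gen deg i * word deg l := by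
  simp [word]

theorem word_append (l l' : List ι) : word deg (l ++ l') = word deg l * word deg l' := by
  simp [word]

theorem word_singleton (i : ι) : word deg [i] = gen deg i := by simp [word]

theorem span_word_eq_top : span ℚ (Set.range (word deg)) = ⊤ := by
  rw [eq_top_iff]
  rintro a -
  obtain ⟨b, rfl⟩ := RingQuot.mkAlgHom_surjective ℚ (GCRel deg) a
  have hmul : ∀ x y : Lam deg, x ∈ span ℚ (Set.range (word deg)) →
      y ∈ span ℚ (Set.range (word deg)) → x * y ∈ span ℚ (Set.range (word deg)) := by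
    intro x y hx hy
    induction hx using Submodule.span_induction with
    | mem x h =>
      obtain ⟨l, rfl⟩ := h
      induction hy using Submodule.span_induction with
      | mem y h =>
        obtain ⟨l', rfl⟩ := h
        rw [← word_append]
        exact subset_span ⟨_, rfl⟩
      | zero => rw [mul_zero]; exact zero_mem _
      | add y z _ _ hy hz => rw [mul_add]; exact add_mem hy hz
      | smul c y _ hy => rw [mul_smul_comm]; exact smul_mem _ c hy
    | zero => rw [zero_mul]; exact zero_mem _
    | add x z _ _ hx hz => rw [add_mul]; exact add_mem hx hz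
    | smul c x _ hx => rw [smul_mul_assoc]; exact smul_mem _ c hx
  induction b using FreeAlgebra.induction with
  | grade0 r =>
    have h1 : RingQuot.mkAlgHom ℚ (GCRel deg) (algebraMap ℚ (FreeAlgebra ℚ ι) r) =
        (r • (1 : Lam deg)) := by
      rw [AlgHom.commutes, Algebra.algebraMap_eq_smul_one]; rfl
    rw [h1]
    exact smul_mem _ _ (subset_span ⟨[], rfl⟩)
  | grade1 i => exact subset_span ⟨[i], word_singleton i⟩
  | mul x y hx hy =>
    rw [map_mul]
    exact hmul _ _ hx hy
  | add x y hx hy =>
    rw [map_add]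
    exact add_mem hx hy

theorem word_induction {p : Lam deg → Prop} (hw : ∀ l, p (word deg l)) (h0 : p 0)
    (ha : ∀ x y, p x → p y → p (x + y)) (hs : ∀ (c : ℚ) x, p x → p (c • x)) (a : Lam deg) : p a := by
  have h : a ∈ span ℚ (Set.range (word deg)) := by rw [span_word_eq_top]; trivial
  induction h using Submodule.span_induction with
  | mem x h => obtain ⟨l, rfl⟩ := h; exact hw l
  | zero => exact h0
  | add x y _ _ hx hy => exact ha x y hx hy
  | smul c x _ hx => exact hs c x hx

theorem gr_induction {n : ℕ} {p : Lam deg → Prop}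
    (hw : ∀ l : List ι, (l.map deg).sum = n → p (word deg l)) (h0 : p 0)
    (ha : ∀ x y, p x → p y → p (x + y)) (hs : ∀ (c : ℚ) x, p x → p (c • x)) (a : Lam deg)
    (h : a ∈ gr deg n) : p a := by
  induction h using Submodule.span_induction with
  | mem x h => obtain ⟨l, hl, rfl⟩ := h; exact hw l hl
  | zero => exact h0
  | add x y _ _ hx hy => exact ha x y hx hy
  | smul c x _ hx => exact hs c x hx

theorem word_mem_gr (l : List ι) : word deg l ∈ gr deg (l.map deg).sum := subset_span ⟨l, rfl, rfl⟩

theorem gen_mem_gr (i : ι) : gen deg i ∈ gr deg (deg i) := by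
  have := word_mem_gr (deg := deg) [i]
  simpa using this

theorem mul_mem_gr {m n : ℕ} {a b : Lam deg} (ha : a ∈ gr deg m) (hb : b ∈ gr deg n) :
    a * b ∈ gr deg (m + n) := by
  refine gr_induction (p := fun a => a * b ∈ gr deg (m + n)) ?_ ?_ ?_ ?_ a ha
  · intro l hl
    refine gr_induction (p := fun b => word deg l * b ∈ gr deg (m + n)) ?_ ?_ ?_ ?_ b hb
    · intro l' hl'
      rw [← word_append]
      have := word_mem_gr (deg := deg) (l ++ l')
      rw [List.map_append, List.sum_append, hl, hl'] at this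
      exact this
    · rw [mul_zero]; exact zero_mem _
    · intro x y hx hy; rw [mul_add]; exact add_mem hx hy
    · intro c x hx; rw [mul_smul_comm]; exact smul_mem _ _ hx
  · rw [zero_mul]; exact zero_mem _
  · intro x y hx hy; rw [add_mul]; exact add_mem hx hy
  · intro c x hx; rw [smul_mul_assoc]; exact smul_mem _ _ hx

/-! ### Homogeneous projections -/

/-- The degree-counting homomorphism `v_i ↦ v_i T^(deg i)`. -/
noncomputable def Delta (deg : ι → ℕ) : Lam deg →ₐ[ℚ] (Lam deg)[X] :=
  lift (fun i => C (gen deg i) * X ^ (deg i)) (by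
    intro i j
    have h1 : ∀ i j : ι, (C (gen deg i) * X ^ (deg i) : (Lam deg)[X]) * (C (gen deg j) * X ^ (deg j)) =
        C (gen deg i * gen deg j) * X ^ (deg i + deg j) := by
      intro i j
      rw [mul_assoc, ← mul_assoc (X ^ deg i), X_pow_mul, C_mul, pow_add]
      simp only [mul_assoc]
    rw [h1, h1, gen_comm i j, add_comm (deg j), ← smul_C, smul_mul_assoc])

theorem Delta_gen (i : ι) : Delta deg (gen deg i) = C (gen deg i) * X ^ (deg i) := lift_gen _ _ i

theorem Delta_word (l : List ι) : Delta deg (word deg l) = C (word deg l) * X ^ (l.map deg).sum := by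
  induction l with
  | nil => simp
  | cons i l ih =>
    rw [word_cons, map_mul, ih, Delta_gen, List.map_cons, List.sum_cons, mul_assoc,
      ← mul_assoc (X ^ deg i), X_pow_mul, C_mul, pow_add]
    simp only [mul_assoc]

/-- The projection to the component of degree `n`. -/
noncomputable def proj (deg : ι → ℕ) (n : ℕ) : Lam deg →ₗ[ℚ] Lam deg where
  toFun a := (Delta deg a).coeff n
  map_add' a b := by simp
  map_smul' c a := by simp

theorem proj_word (n : ℕ) (l : List ι) :
    proj deg n (word deg l) = if (l.map deg).sum = n then word deg l else 0 := by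
  change (Delta deg (word deg l)).coeff n = _
  rw [Delta_word, coeff_C_mul, coeff_X_pow]
  by_cases h : (l.map deg).sum = n
  · simp [h]
  · rw [if_neg (fun h' => h h'.symm), if_neg h, mul_zero]

theorem proj_of_mem {n : ℕ} {a : Lam deg} (h : a ∈ gr deg n) : proj deg n a = a := by
  refine gr_induction (p := fun a => proj deg n a = a) ?_ (map_zero _) ?_ ?_ a h
  · intro l hl; rw [proj_word, if_pos hl]
  · intro x y hx hy; rw [map_add, hx, hy]
  · intro c x hx; rw [map_smul, hx]

theorem proj_of_mem_ne {m n : ℕ} (hmn : m ≠ n) {a : Lam deg} (h : a ∈ gr deg m) :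
    proj deg n a = 0 := by
  refine gr_induction (p := fun a => proj deg n a = 0) ?_ (map_zero _) ?_ ?_ a h
  · intro l hl; rw [proj_word, if_neg (by rw [hl]; exact hmn)]
  · intro x y hx hy; rw [map_add, hx, hy, add_zero]
  · intro c x hx; rw [map_smul, hx, smul_zero]

theorem proj_mem (n : ℕ) (a : Lam deg) : proj deg n a ∈ gr deg n := by
  refine word_induction (p := fun a => proj deg n a ∈ gr deg n) ?_ ?_ ?_ ?_ a
  · intro l
    rw [proj_word]
    split_ifs with h
    · rw [← h]; exact word_mem_gr l
    · exact zero_mem _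
  · rw [map_zero]; exact zero_mem _
  · intro x y hx hy; rw [map_add]; exact add_mem hx hy
  · intro c x hx; rw [map_smul]; exact smul_mem _ _ hx

theorem exists_sum_proj (a : Lam deg) : ∃ N : ℕ, a = ∑ n ∈ Finset.range N, proj deg n a := by
  have h : ∃ N : ℕ, ∀ M, N ≤ M → a = ∑ n ∈ Finset.range M, proj deg n a := by
    refine word_induction (p := fun a => ∃ N : ℕ, ∀ M, N ≤ M → a = ∑ n ∈ Finset.range M, proj deg n a)
      ?_ ?_ ?_ ?_ a
    · intro l
      refine ⟨(l.map deg).sum + 1, fun M hM => ?_⟩
      simp only [proj_word]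
      rw [Finset.sum_ite_eq, if_pos (Finset.mem_range.mpr hM)]
    · exact ⟨0, fun M _ => by simp⟩
    · rintro x y ⟨N, hN⟩ ⟨N', hN'⟩
      refine ⟨max N N', fun M hM => ?_⟩
      simp only [map_add, Finset.sum_add_distrib]
      rw [← hN M (le_trans (le_max_left _ _) hM), ← hN' M (le_trans (le_max_right _ _) hM)]
    · rintro c x ⟨N, hN⟩
      refine ⟨N, fun M hM => ?_⟩
      simp only [map_smul, ← Finset.smul_sum]
      rw [← hN M hM]
  obtain ⟨N, hN⟩ := h
  exact ⟨N, hN N le_rfl⟩

theorem proj_of_even {a : Lam deg} (h : a ∈ evenPart deg) {n : ℕ} (hn : Odd n) :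
    proj deg n a = 0 := by
  have h1 : evenPart deg ≤ LinearMap.ker (proj deg n) := by
    refine iSup_le fun k => ?_
    intro b hb
    rw [LinearMap.mem_ker]
    refine proj_of_mem_ne ?_ hb
    rintro rfl
    exact (Nat.not_odd_iff_even.mpr ⟨k, by ring⟩) hn
  exact h1 h

/-! ### Graded commutativity -/

theorem gen_mul_word (i : ι) (l : List ι) : gen deg i * word deg l =
    (-1 : ℚ) ^ (deg i * (l.map deg).sum) • (word deg l * gen deg i) := by
  induction l with
  | nil => simp
  | cons j l ih =>
    rw [word_cons, ← mul_assoc, gen_comm i j, smul_mul_assoc, mul_assoc, ih, mul_smul_comm, smul_smul,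
      List.map_cons, List.sum_cons, mul_add, pow_add]
    simp only [mul_assoc]

theorem word_mul_word (l l' : List ι) : word deg l * word deg l' =
    (-1 : ℚ) ^ ((l.map deg).sum * (l'.map deg).sum) • (word deg l' * word deg l) := by
  induction l with
  | nil => simp
  | cons j l ih =>
    rw [word_cons, mul_assoc, ih, mul_smul_comm, ← mul_assoc, gen_mul_word, smul_mul_assoc, smul_smul,
      List.map_cons, List.sum_cons, add_mul, pow_add, mul_assoc]
    rw [mul_comm ((-1 : ℚ) ^ _)]

theorem graded_comm {m n : ℕ} {a b : Lam deg} (ha : a ∈ gr deg m) (hb : b ∈ gr deg n) :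
    a * b = (-1 : ℚ) ^ (m * n) • (b * a) := by
  refine gr_induction (p := fun a => a * b = (-1 : ℚ) ^ (m * n) • (b * a)) ?_ ?_ ?_ ?_ a ha
  · intro l hl
    refine gr_induction (p := fun b => word deg l * b = (-1 : ℚ) ^ (m * n) • (b * word deg l))
      ?_ ?_ ?_ ?_ b hb
    · intro l' hl'
      rw [word_mul_word, hl, hl']
    · simp
    · intro x y hx hy; rw [mul_add, add_mul, smul_add, hx, hy]
    · intro c x hx; rw [mul_smul_comm, hx, smul_mul_assoc, smul_comm]
  · simp
  · intro x y hx hy; rw [mul_add, add_mul, smul_add, hx, hy]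
  · intro c x hx; rw [mul_smul_comm, smul_mul_assoc, hx, smul_comm]

end Pool.Agent.Lib.MP_3de1ca_gt
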