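import Pool.Agent.Lib.MP_3de1ca_gt.Diff

set_option autoImplicit false

open Submodule MvPolynomial TrivSqZeroExt

namespace Pool.Agent.Lib.MP_3de1ca_gt

/-! ### The comparison map -/

/-- values of the even generators -/
noncomputable def rval : II → RR
  | ⟨Code.e k, _⟩ => X k.castSucc
  | ⟨Code.q _, _⟩ => 0
  | ⟨Code.x, _⟩ => X 3
  | ⟨Code.h _ _, _⟩ => 0

theorem rval_hom (i : II) (hi : ¬ Odd (dg i)) : IsWeightedHomogeneous wt (rval i) (dg i) := by
  rcases even_dg i (Nat.not_odd_iff_even.mp hi) with ⟨k, rfl⟩ | rfl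
  · have h := isWeightedHomogeneous_X ℚ wt k.castSucc
    have hw : wt k.castSucc = dg (Ie k) := by fin_cases k <;> rfl
    rw [hw] at h
    exact h
  · exact isWeightedHomogeneous_X ℚ wt 3

open Classical in
/-- values of the odd generators -/
noncomputable def mval : II → MM
  | ⟨Code.e _, _⟩ => 0
  | ⟨Code.q α, _⟩ => qq α
  | ⟨Code.x, _⟩ => 0
  | ⟨Code.h n f, hv⟩ =>
      if hex : ∃ y : MM, inl (mu y) = psi dg rval (fun j =>
        if _h : dg j < dg ⟨Code.h n f, hv⟩ then mval j else 0) (delta ⟨Code.h n f, hv⟩)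
      then hex.choose else 0
termination_by i => dg i

/-- truncated values -/
noncomputable def mLT (n : ℕ) (j : II) : MM := if dg j < n then mval j else 0

theorem mval_Iq (α : Fin 6) : mval (Iq α) = qq α := mval.eq_2 α trivial

theorem mval_h (n : ℕ) (f : Fin n → Code) (hv : (Code.h n f).Valid)
    (hex : ∃ y : MM, inl (mu y) = psi dg rval (mLT (dg ⟨Code.h n f, hv⟩)) (delta ⟨Code.h n f, hv⟩)) :
    inl (mu (mval ⟨Code.h n f, hv⟩)) =
      psi dg rval (mLT (dg ⟨Code.h n f, hv⟩)) (delta ⟨Code.h n f, hv⟩) := by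
  have h1 : mval ⟨Code.h n f, hv⟩ = hex.choose := by
    rw [mval.eq_4]
    exact dif_pos hex
  rw [h1]
  exact hex.choose_spec

/-- the comparison map -/
noncomputable def Psi : Lam dg →ₐ[ℚ] TT := psi dg rval mval

theorem Psi_gen (i : II) : Psi (gen dg i) = pval dg rval mval i := psi_gen _ _ i

theorem pval_Ie (k : Fin 3) (m : II → MM) : pval dg rval m (Ie k) = inl (X k.castSucc) := by
  rw [pval, if_neg (by rw [dg_Ie]; decide)]
  rfl

theorem pval_Ix (m : II → MM) : pval dg rval m Ix = inl (X 3) := by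
  rw [pval, if_neg (by rw [dg_Ix]; decide)]
  rfl

theorem pval_Iq (α : Fin 6) : pval dg rval mval (Iq α) = inr (qq α) := by
  rw [pval, if_pos (by rw [dg_Iq]; decide), mval_Iq]

theorem rq_eq (α : Fin 6) : rq α = X (pa α).castSucc * X (pb α).castSucc := by
  rw [rq, X, X, monomial_mul, one_mul]
  fin_cases α <;> rfl

theorem psi_mLT (n : ℕ) (hn : Even (n + 1)) (h6 : 6 ≤ n + 1) (c : Lam dg) (hc : c ∈ gr dg (n + 1)) :
    psi dg rval (mLT n) c = Psi c := by
  refine gr_induction (p := fun c => psi dg rval (mLT n) c = Psi c) ?_ ?_ ?_ ?_ c hc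
  · intro l hl
    refine psi_word_congr _ _ _ l fun i hi => ?_
    have := letters_lt l (by rw [hl]; exact hn) (by rw [hl]; exact h6) i hi
    rw [mLT, if_pos (by omega)]
  · rw [map_zero, map_zero]
  · intro x y hx hy; rw [map_add, map_add, hx, hy]
  · intro c x hx; rw [map_smul, map_smul, hx]

theorem Psi_DD_gr (n : ℕ) (hn : Even (n + 1)) (h6 : 6 ≤ n + 1)
    (h : ∀ i, dg i < n → Psi (delta i) = dT (pval dg rval mval i)) (c : Lam dg)
    (hc : c ∈ gr dg (n + 1)) : Psi (DD c) = dT (Psi c) := by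
  refine gr_induction (p := fun c => Psi (DD c) = dT (Psi c)) ?_ ?_ ?_ ?_ c hc
  · intro l hl
    refine psi_chain rval mval delta delta_mem l fun i hi => ?_
    have := letters_lt l (by rw [hl]; exact hn) (by rw [hl]; exact h6) i hi
    exact h i (by omega)
  · simp only [map_zero]
  · intro x y hx hy; simp only [map_add, hx, hy]
  · intro c x hx; simp only [map_smul, hx]

theorem compat (n : ℕ) : ∀ i, dg i < n → Psi (delta i) = dT (pval dg rval mval i) := by
  induction n with
  | zero => intro i hi; omega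
  | succ n ih =>
    intro i hi
    by_cases hi' : dg i < n
    · exact ih i hi'
    have hin : dg i = n := by omega
    revert hin
    refine II_cases (p := fun i => dg i = n → Psi (delta i) = dT (pval dg rval mval i))
      ?_ ?_ ?_ ?_ i
    · intro k _
      rw [delta_Ie, map_zero, pval_Ie, dT_apply]
      have h3 : pderiv (3 : Fin 4) (X k.castSucc : RR) = 0 := by
        apply pderiv_X_of_ne
        fin_cases k <;> decide
      simp [h3]
    · intro α _
      rw [delta_Iq, map_mul, Psi_gen, Psi_gen, pval_Ie, pval_Ie, pval_Iq, dT_apply, ← inl_mul,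
        ← rq_eq]
      simp [mu_qq]
    · intro _
      rw [delta_Ix, map_sub, map_add, map_smul, map_mul, map_mul, map_mul]
      simp only [Psi_gen]
      rw [pval_Ie, pval_Ie, pval_Ie, pval_Iq, pval_Iq, pval_Iq, pval_Ix, dT_apply]
      have hc : (2 * X 2 : RR) • qq 5 = (2 : ℚ) • ((X 2 : RR) • qq 5) := by
        rw [mul_smul, two_smul, two_smul]
      ext
      · simp
      · simp [aa, hc]
    · intro k f hv hn
      have hd := dg_h k f hv
      rw [hn] at hd
      have hmem := delta_mem ⟨Code.h k f, hv⟩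
      rw [hn] at hmem
      have hodd : Odd n := by
        obtain ⟨a, ha⟩ := hd.1
        exact ⟨a - 1, by omega⟩
      have h1 : psi dg rval (mLT n) (delta ⟨Code.h k f, hv⟩) = Psi (delta ⟨Code.h k f, hv⟩) :=
        psi_mLT n hd.1 hd.2 _ hmem
      have h2 : dT (Psi (delta ⟨Code.h k f, hv⟩)) = 0 := by
        rw [← Psi_DD_gr n hd.1 hd.2 ih _ hmem, DD_delta, map_zero]
      have h3 := exists_mu rval mval rval_hom (n := n + 1) (Nat.not_odd_iff_even.mpr hd.1)
        (by omega) (delta ⟨Code.h k f, hv⟩) hmem h2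
      have h4 := mval_h k f hv (by rw [hn, h1]; exact h3)
      rw [hn, h1] at h4
      rw [← h4, pval, if_pos (by rw [hn]; exact hodd), dT_apply]
      simp

theorem Psi_delta (i : II) : Psi (delta i) = dT (pval dg rval mval i) :=
  compat (dg i + 1) i (Nat.lt_succ_self _)

theorem Psi_DD (a : Lam dg) : Psi (DD a) = dT (Psi a) := by
  refine word_induction (p := fun a => Psi (DD a) = dT (Psi a)) ?_ ?_ ?_ ?_ a
  · intro l
    exact psi_chain rval mval delta delta_mem l fun i _ => Psi_delta i
  · simp only [map_zero]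
  · intro x y hx hy; simp only [map_add, hx, hy]
  · intro c x hx; simp only [map_smul, hx]

/-- The augmentation `ΛV → ℚ[t]`. -/
noncomputable def phi : Lam dg →ₐ[ℚ] Polynomial ℚ :=
  ((aeval (![0, 0, 0, Polynomial.X] : Fin 4 → Polynomial ℚ)).comp
    (TrivSqZeroExt.fstHom ℚ RR MM)).comp Psi

theorem phi_apply (a : Lam dg) :
    phi a = aeval (![0, 0, 0, Polynomial.X] : Fin 4 → Polynomial ℚ) (Psi a).fst := rfl

theorem phi_DD (a : Lam dg) : phi (DD a) = 0 := by
  rw [phi_apply, Psi_DD, dT_apply]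
  simp only [fst_add, fst_inl, fst_inr, add_zero]
  exact eval_mu _ _ rfl rfl rfl

theorem phi_Ix : phi (gen dg Ix) = Polynomial.X := by
  rw [phi_apply, Psi_gen, pval_Ix, fst_inl, aeval_X]
  rfl

theorem phi_low (i : II) (hi : dg i < 4) : phi (gen dg i) = 0 := by
  revert hi
  refine II_cases (p := fun i => dg i < 4 → phi (gen dg i) = 0) ?_ ?_ ?_ ?_ i
  · intro k _
    rw [phi_apply, Psi_gen, pval_Ie, fst_inl, aeval_X]
    fin_cases k <;> rfl
  · intro α _
    rw [phi_apply, Psi_gen, pval_Iq, fst_inr, map_zero]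
  · intro h; rw [dg_Ix] at h; omega
  · intro k f hv h
    have := (dg_h k f hv).2
    omega

theorem phi_lowIdeal (a : Lam dg) (ha : a ∈ lowIdeal dg 4) : phi a = 0 := by
  have h : lowIdeal dg 4 ≤ LinearMap.ker phi.toLinearMap := by
    rw [lowIdeal, span_le]
    rintro _ ⟨a, b, i, hi, rfl⟩
    rw [SetLike.mem_coe, LinearMap.mem_ker, AlgHom.toLinearMap_apply, map_mul, map_mul,
      phi_low i hi, mul_zero, zero_mul]
  exact h ha

/-! ### The minimal Sullivan algebra -/

theorem delta_minimal (i : II) : delta i ∈ lengthGE dg 2 := by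
  have hw : ∀ i j : II, gen dg i * gen dg j ∈ lengthGE dg 2 := fun i j =>
    subset_span ⟨[i, j], le_rfl, by simp [word]⟩
  refine II_cases (p := fun i => delta i ∈ lengthGE dg 2) ?_ ?_ ?_ ?_ i
  · intro k; rw [delta_Ie]; exact zero_mem _
  · intro α; rw [delta_Iq]; exact hw _ _
  · rw [delta_Ix]
    exact sub_mem (add_mem (hw _ _) (hw _ _)) (smul_mem _ _ (hw _ _))
  · intro n f hv
    have h1 := delta_mem ⟨Code.h n f, hv⟩
    have h2 := dg_h n f hv
    refine gr_induction (p := fun c => c ∈ lengthGE dg 2) ?_ (zero_mem _)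
      (fun x y hx hy => add_mem hx hy) (fun c x hx => smul_mem _ _ hx) _ h1
    intro l hl
    refine subset_span ⟨l, ?_, rfl⟩
    by_contra hcon
    have h3 : l.length = 0 ∨ l.length = 1 := by omega
    rcases h3 with h3 | h3
    · rw [List.length_eq_zero_iff] at h3
      subst h3
      simp at hl
    · rw [List.length_eq_one_iff] at h3
      obtain ⟨j, rfl⟩ := h3
      have := letters_lt [j] (by rw [hl]; exact h2.1) (by rw [hl]; exact h2.2) j (by simp)
      simp at this

/-- The counterexample. -/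
noncomputable def AA : MinimalSullivan II where
  deg := dg
  two_le := two_le_dg
  d := DD
  d_mem := der_mem _ _
  d_mul := fun _ a b ha => der_mul _ _ a b ha
  d_d := DD_DD
  minimal := fun i => by rw [DD_gen]; exact delta_minimal i

theorem not_nilpotent : ¬ AA.IsNilpotentGen Ix := by
  rintro ⟨m, _, b, hb⟩
  have key : ∀ b : Lam dg, phi ((gen dg Ix) ^ m - DD b) = 0 → False := by
    intro b h1
    rw [map_sub, phi_DD, sub_zero, map_pow, phi_Ix] at h1
    exact pow_ne_zero m Polynomial.X_ne_zero h1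
  exact key b (phi_lowIdeal _ hb)

theorem finite_even : {i : II | Even (dg i)}.Finite := by
  have h : ({i : II | Even (dg i)}) ⊆ Set.range Ie ∪ {Ix} := by
    intro i hi
    rcases even_dg i hi with ⟨k, rfl⟩ | rfl
    · exact Or.inl ⟨k, rfl⟩
    · exact Or.inr rfl
  exact ((Set.finite_range _).union (Set.finite_singleton _)).subset h

theorem finite_lists (n : ℕ) : {l : List II | (l.map dg).sum = n}.Finite := by
  have h : (⋃ k ∈ Finset.range (n + 1), (fun f : Fin k → II => List.ofFn f) ''
      {f | ∀ i, f i ∈ {i : II | dg i ≤ n}}).Finite :=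
    Set.Finite.biUnion (Finset.finite_toSet _) fun k _ => (Set.Finite.pi' fun _ => finite_le n).image _
  refine h.subset ?_
  intro l hl
  simp only [Set.mem_ofPred_eq] at hl
  have hlen := length_mul_two_le l
  rw [hl] at hlen
  simp only [Set.mem_iUnion]
  refine ⟨l.length, by simp; omega, l.get, ?_, List.ofFn_get l⟩
  intro i
  obtain ⟨l₁, l₂, h2⟩ := List.append_of_mem (List.get_mem l i)
  have h3 : dg (l.get i) ≤ n := by
    rw [← hl]
    conv_rhs => rw [h2]
    simp only [List.map_append, List.map_cons, List.sum_append, List.sum_cons]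
    omega
  exact h3

theorem finiteDimensional_gr (n : ℕ) : FiniteDimensional ℚ (gr dg n) := by
  have : (gr dg n).FG := by
    refine Submodule.fg_span ?_
    refine ((finite_lists n).image (word dg)).subset ?_
    rintro _ ⟨l, hl, rfl⟩
    exact ⟨l, hl, rfl⟩
  exact Module.Finite.iff_fg.mpr this

theorem finite_Heven_of {ι : Type} (A : MinimalSullivan ι) (W : Submodule ℚ (Lam A.deg))
    (hW : FiniteDimensional ℚ W)
    (h : ∀ z ∈ A.Zeven, z ∈ LinearMap.range A.d ⊔ (W ⊓ A.Zeven)) : FiniteDimensional ℚ A.Heven := by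
  have hWZ : FiniteDimensional ℚ (W ⊓ A.Zeven : Submodule ℚ (Lam A.deg)) :=
    Submodule.finiteDimensional_inf_left _ _
  let g : (W ⊓ A.Zeven : Submodule ℚ (Lam A.deg)) →ₗ[ℚ] A.Heven :=
    ((LinearMap.range A.d).comap A.Zeven.subtype).mkQ ∘ₗ Submodule.inclusion inf_le_right
  refine Module.Finite.of_surjective g ?_
  intro y
  obtain ⟨⟨z, hz⟩, rfl⟩ := Submodule.mkQ_surjective _ y
  obtain ⟨d, hd, w, hw, hdw⟩ := Submodule.mem_sup.mp (h z hz)
  refine ⟨⟨w, hw⟩, ?_⟩
  rw [LinearMap.comp_apply, mkQ_apply, mkQ_apply, Submodule.Quotient.eq]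
  rw [Submodule.mem_comap]
  have : A.Zeven.subtype (Submodule.inclusion inf_le_right ⟨w, hw⟩ - ⟨z, hz⟩) = w - z := rfl
  rw [this, ← hdw]
  have h2 : w - (d + w) = -d := by abel
  rw [h2]
  exact neg_mem hd

theorem mem_sup_W (z : Lam dg) (hz1 : DD z = 0) (hz2 : z ∈ evenPart dg) :
    z ∈ LinearMap.range DD ⊔ (((gr dg 0 ⊔ gr dg 2) ⊔ gr dg 4) ⊓ (LinearMap.ker DD ⊓ evenPart dg)) := by
  have key : ∀ n, proj dg n z ∈ LinearMap.range DD ⊔
      (((gr dg 0 ⊔ gr dg 2) ⊔ gr dg 4) ⊓ (LinearMap.ker DD ⊓ evenPart dg)) := by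
    intro n
    by_cases hodd : Odd n
    · rw [proj_of_even hz2 hodd]; exact zero_mem _
    have heven : Even n := Nat.not_odd_iff_even.mp hodd
    have hcl : DD (proj dg n z) = 0 := by
      have := proj_der delta delta_mem n z
      change proj dg (n + 1) (DD z) = DD (proj dg n z) at this
      rw [← this, hz1, map_zero]
    by_cases h6 : 6 ≤ n
    · refine mem_sup_left ?_
      obtain ⟨b, hb⟩ := exact_even (n - 1) (by rw [Nat.sub_add_cancel (by omega)]; exact heven)
        (by omega) (proj dg n z) (by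
          rw [Nat.sub_add_cancel (by omega)]; exact proj_mem n z) hcl
      exact ⟨b, hb⟩
    · refine mem_sup_right ⟨?_, hcl, ?_⟩
      · have hcases : n = 0 ∨ n = 2 ∨ n = 4 := by
          obtain ⟨a, ha⟩ := heven
          omega
        rcases hcases with rfl | rfl | rfl
        · exact mem_sup_left (mem_sup_left (proj_mem 0 z))
        · exact mem_sup_left (mem_sup_right (proj_mem 2 z))
        · exact mem_sup_right (proj_mem 4 z)
      · obtain ⟨a, ha⟩ := heven
        have h1 : gr dg n ≤ evenPart dg := by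
          have : n = 2 * a := by omega
          rw [this]
          exact le_iSup (fun a => gr dg (2 * a)) a
        exact h1 (proj_mem n z)
  obtain ⟨N, hN⟩ := exists_sum_proj z
  rw [hN]
  exact sum_mem fun n _ => key n

theorem finite_Heven : FiniteDimensional ℚ AA.Heven := by
  have := finiteDimensional_gr 0
  have := finiteDimensional_gr 2
  have := finiteDimensional_gr 4
  have hW : FiniteDimensional ℚ ((gr dg 0 ⊔ gr dg 2) ⊔ gr dg 4 : Submodule ℚ (Lam dg)) :=
    inferInstance
  exact finite_Heven_of AA ((gr dg 0 ⊔ gr dg 2) ⊔ gr dg 4 : Submodule ℚ (Lam dg)) hW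
    fun z hz => mem_sup_W z hz.1 hz.2

/-- The main theorem. -/
theorem main : ∃ (ι : Type) (A : MinimalSullivan ι), (∀ n, {i | A.deg i = n}.Finite) ∧
    {i | Even (A.deg i)}.Finite ∧ FiniteDimensional ℚ A.Heven ∧ ∃ i, ¬ A.IsNilpotentGen i := by
  refine ⟨II, AA, fun n => ?_, finite_even, finite_Heven, Ix, not_nilpotent⟩
  refine (finite_le n).subset ?_
  intro i hi
  exact le_of_eq hi

end Pool.Agent.Lib.MP_3de1ca_gt
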